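import Pool.Agent.W498.Dom.FixDefs

/-!
# Algebraic sections of the restriction to a fibre: definitions
-/

open CategoryTheory AlgebraicGeometry

universe u v

namespace Pool.Agent.W498.Spl

open Pool.Agent.H914 VarClass Obj WeilCohomology Pool.Agent.W498.Dom

/-- The operator `y` maps the sum of the `P q` with `q < a` to the sum of those with
`q < a - 2 c`, for all `a`, and among the elements of the sum of the `P q` with `q ≤ m + c` only
those of the sum of the `P q` with `q < m + c` to the sum of the `P q` with `q < m - c`. -/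
def InjectsPieces {K V : Type*} [Field K] [AddCommGroup V] [Module K V] (P : ℕ → Submodule K V)
    (m c : ℕ) (y : Module.End K V) : Prop :=
  (∀ a, ∀ v ∈ below P a, y v ∈ below P (a - 2 * c)) ∧
    ∀ v ∈ below P (m + c + 1), y v ∈ below P (m - c) → v ∈ below P (m + c)

/-- The composition of `φ` and `ι` is the identity on `I` and zero on `J`. -/
def ProjectsAlong {K A B : Type*} [Field K] [Ring A] [Algebra K A] [Ring B] [Algebra K B]
    (ι : B →ₐ[K] A) (φ : A →ₗ[K] B) (I J : Submodule K A) : Prop :=
  (∀ x ∈ I, ι (φ x) = x) ∧ ∀ x ∈ J, ι (φ x) = 0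

variable {k : Type u} [Field k] {𝒱 : VarClass k} {ops : CycleOps 𝒱}

/-- The conjecture B along the fibres, in terms of injective operators: for `1 ≤ c ≤ m = dim Y` a
`K`-linear combination of algebraic correspondences on `Y` lowers the perverse filtration by `2 c`
and induces an injection from the contribution of `ᵖH^(m + c)(Rf_* K)` to the one of
`ᵖH^(m - c)(Rf_* K)`. -/
def LefschetzAlongFibres {W : WeilCohomology.{u, v} ops} {Y S : 𝒱.Obj} {f : Y ⟶ S} {D : S.Cycles}
    {E : Y.Cycles} (Q : PerverseDecomposition W f D E) : Prop :=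
  ∀ c : ℕ, 1 ≤ c → c ≤ Y.dim → ∃ y, IsCombination W Y (Y.dim - c) y ∧
    InjectsPieces Q.piece Y.dim c y

/-- There is a `K`-linear combination of algebraic correspondences from `P` to `Y` whose composition
with the restriction `i^* : H(Y) ⟶ H(P)` is the orthogonal projector onto the fixed part
`i^* H(Y)` of `H(P)`. -/
def RestrictionSplits (W : WeilCohomology.{u, v} ops) {P Y : 𝒱.Obj} (i : P ⟶ Y) : Prop :=
  ∃ c ∈ spanCycles W (P.prod Y) P.dim,
    ProjectsAlong (W.map i) (W.corr c) (fixedPart W i) (fixedPerp W i)

/-- The fixed part of `H(P)` is spanned over `K` by restrictions of classes of algebraic cycles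
on `Y`. -/
def FixedAlgebraic (W : WeilCohomology.{u, v} ops) {P Y : 𝒱.Obj} (i : P ⟶ Y) : Prop :=
  ∀ j, fixedGr W i j ≤ (algSpan W Y j).map (W.map i).toLinearMap

end Pool.Agent.W498.Spl
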