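import Pool.Agent.W498.Dom.RelDefs

/-!
# The decomposition theorem in terms of the pull-back of the divisor of the base
-/

open CategoryTheory AlgebraicGeometry

universe u v

namespace Pool.Agent.W498.Spl

open Pool.Agent.H914 VarClass Obj WeilCohomology Pool.Agent.W498.Dom

variable {k : Type u} [Field k] {𝒱 : VarClass k} {ops : CycleOps 𝒱}

/-- The decomposition theorem for a morphism `f : Y ⟶ S` in terms of the pull-back of `D` to `Y`. -/
def pieces {W : WeilCohomology.{u, v} ops} {Y S : 𝒱.Obj} {f : Y ⟶ S} {D : S.Cycles}
    {E : Y.Cycles} (Q : PerverseDecomposition W f D E) : PerversePieces W (ops.pull f D) E where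
  piece := Q.piece
  isPerverse := by
    have h := Q.isPerverse
    have e : W.cl Y (ops.pull f D) = W.map f (W.cl S D) := W.cl_pull f D
    exact
    { isInternal := h.isInternal
      graded := h.graded
      smul_mem := by
        rintro p y rfl x hx
        rw [e]
        exact h.smul_mem p _ ⟨_, rfl⟩ x hx
      eq_bot := h.eq_bot
      hardLef := by rw [e]; exact h.hardLef
      mul_mem := h.mul_mem
      relHardLef := h.relHardLef }

end Pool.Agent.W498.Spl
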