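import Pool.Agent.W498.Dom.RelMain
import Pool.Agent.W498.Spl.Defs
import Pool.Agent.W498.Spl.Pieces

/-!
# Algebraic sections of the restriction to a fibre
-/

open CategoryTheory AlgebraicGeometry Finset

set_option linter.unusedSectionVars false

universe u v

namespace Pool.Agent.W498.Spl

open Pool.Agent.H914 Pool.Agent.H447 VarClass Obj WeilCohomology Pool.Agent.W498.Dom
  Pool.Agent.W534

variable {k : Type u} [Field k] {𝒱 : VarClass k} {ops : CycleOps 𝒱}
  {W : WeilCohomology.{u, v} ops} {P Y S : 𝒱.Obj} {f : Y ⟶ S} {D : S.Cycles} {E : Y.Cycles}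
  {Q : PerverseDecomposition W f D E} {i : P ⟶ Y}

/-- Homogeneous operators commute with the projectors. -/
lemma hom_proj {K V V' : Type*} [Field K] [AddCommGroup V] [Module K V] [AddCommGroup V']
    [Module K V'] {gr : ℕ → Submodule K V} {gr' : ℕ → Submodule K V'} (h : DirectSum.IsInternal gr)
    (h' : DirectSum.IsInternal gr') {T : V →ₗ[K] V'} {d : ℕ}
    (hT : ∀ j, ∀ v ∈ gr j, T v ∈ gr' (j + d)) (j : ℕ) (v : V) :
    T (proj h j v) = proj h' (j + d) (T v) := by
  refine gr_induction h (p := fun v => T (proj h j v) = proj h' (j + d) (T v)) ?_ ?_ v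
  · intro l a ha
    by_cases hl : l = j
    · subst hl
      rw [proj_same _ ha, proj_same _ (hT _ _ ha)]
    · rw [proj_ne _ ha hl, proj_ne _ (hT _ _ ha) (by omega), map_zero]
  · intro a b ha hb
    rw [map_add, map_add, map_add, map_add, ha, hb]

lemma hop_mem (hD : S.IsCyc 1 D) (n j : ℕ) (v : W.H Y) (hv : v ∈ W.gr Y j) :
    (hop W f D ^ n) v ∈ W.gr Y (j + 2 * n) :=
  pow_L_mem (isHom_hop (f := f) (W := W) hD) hv n

/-- Classes killed by the power of the class of the base restrict to zero. -/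
lemma map_zero_of (hD : S.IsCyc 1 D) (hE : Y.IsCyc 1 E) (hi : IsSmoothFibre Q i) {y : W.H Y}
    (hy : (hop W f D ^ S.dim) y = 0) : W.map i y = 0 := by
  obtain ⟨κ, M⟩ := exists_fibSetup hi
  have S' := setup Q hD hE hi.dim_eq
  have key : ∀ j, W.map i (proj (W.isInternal Y) j y) = 0 := by
    intro j
    set z := proj (W.isInternal Y) j y with hz
    have hzg : z ∈ W.gr Y j := proj_mem _ _ _
    have h1 : (hop W f D ^ S.dim) z = 0 := by
      rw [hz, hom_proj (W.isInternal Y) (W.isInternal Y) (T := hop W f D ^ S.dim)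
        (d := 2 * S.dim) (hop_mem hD S.dim), hy, map_zero]
    set y0 := proj S'.iP (j + S.dim) z with hy0
    have hy0P : y0 ∈ Q.piece (j + S.dim) := proj_mem S'.iP _ _
    have hy0g : y0 ∈ W.gr Y j := S'.projP_gr hzg _
    have h4 : (hop W f D ^ S.dim) y0 = 0 := by
      rw [hy0, S'.pow_h_projP, h1, map_zero]
    have h5 : y0 = 0 := by
      apply (Q.isPerverse.hardLef (j + S.dim) j (by omega)).1 y0 ⟨hy0P, hy0g⟩
      rw [show j + S.dim - j = S.dim by omega]
      exact h4
    have h7 := M.iota_proj (m := P.dim) (e := eop W Y E) S' hzg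
    rw [← hy0, h5, map_zero] at h7
    exact h7
  have hsum := sum_proj (W.isInternal Y) (N := 2 * Y.dim + 1)
    (fun i hi => W.gr_eq_bot Y i (by omega))
  have h2 := congrArg (fun F => F y) hsum
  simp only [LinearMap.sum_apply, Module.End.one_apply] at h2
  rw [← h2, map_sum]
  exact Finset.sum_eq_zero fun j _ => key j

/-- The fixed part does not meet its orthogonal complement. -/
lemma fixed_disjoint (hD : S.IsCyc 1 D) (hE : Y.IsCyc 1 E) (hi : IsSmoothFibre Q i) :
    ∀ x, x ∈ fixedPart W i → W.push i x = 0 → x = 0 := by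
  rintro _ ⟨y, rfl⟩ h
  change W.map i y = 0
  obtain ⟨κ, M⟩ := exists_fibSetup hi
  apply map_zero_of hD hE hi
  have h1 := M.γι y
  have h2 : (W.push i) ((W.map i).toLinearMap y) = 0 := h
  rw [h2] at h1
  exact (smul_eq_zero.1 h1.symm).resolve_left M.κ0

lemma fixed_isCompl (hD : S.IsCyc 1 D) (hE : Y.IsCyc 1 E) (hi : IsSmoothFibre Q i) :
    IsCompl (fixedPart W i) (fixedPerp W i) := by
  have hdis : Disjoint (fixedPart W i) (fixedPerp W i) := by
    rw [Submodule.disjoint_def]
    intro x hx hx'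
    exact fixed_disjoint hD hE hi x hx (mem_perp_iff.1 hx')
  refine ⟨hdis, ?_⟩
  rw [codisjoint_iff]
  apply Submodule.eq_top_of_finrank_eq
  have h1 := Submodule.finrank_sup_add_finrank_inf_eq (fixedPart W i) (fixedPerp W i)
  rw [hdis.eq_bot, finrank_bot, add_zero, finrank_perp] at h1
  exact h1

section Curve

variable (hD : S.IsCyc 1 D) (hE : Y.IsCyc 1 E) (hi : IsSmoothFibre Q i) (hS : S.dim = 1)

include hD hE hi hS

lemma hop_sq (y : W.H Y) : (hop W f D ^ 2) y = 0 := by
  rw [hop_pow]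
  have h1 : W.cl S D ^ 2 = 0 := by
    have := xi_mem (W := W) hD 2
    rw [W.gr_eq_bot S _ (by omega)] at this
    exact (Submodule.mem_bot _).1 this
  rw [h1, map_zero, zero_mul]

/-- The cohomology of a curve with coefficients in a perverse sheaf vanishes in large degrees. -/
lemma high_zero {q j : ℕ} (hqj : q + 2 ≤ j) {v : W.H Y} (hv : v ∈ Q.piece q)
    (hj : v ∈ W.gr Y j) : v = 0 := by
  by_cases h : j ≤ 2 * q
  · obtain ⟨a, ha, hav⟩ := (Q.isPerverse.hardLef q (2 * q - j) (by omega)).2 v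
      ⟨hv, by rwa [show 2 * q - (2 * q - j) = j by omega]⟩
    change (hop W f D ^ (q - (2 * q - j))) a = v at hav
    rw [show q - (2 * q - j) = (j - q - 2) + 2 by omega, pow_add, Module.End.mul_apply,
      hop_sq hD hE hi hS, map_zero] at hav
    exact hav.symm
  · have h1 := Q.isPerverse.eq_bot q j (by omega)
    have h2 : v ∈ Q.piece q ⊓ W.gr Y j := ⟨hv, hj⟩
    rw [h1] at h2
    exact (Submodule.mem_bot _).1 h2

/-- The cohomology of a curve with coefficients in a perverse sheaf vanishes in small degrees. -/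
lemma low_zero {q j : ℕ} (hqj : j + 2 ≤ q) {v : W.H Y} (hv : v ∈ Q.piece q)
    (hj : v ∈ W.gr Y j) : v = 0 := by
  apply (Q.isPerverse.hardLef q j (by omega)).1 v ⟨hv, hj⟩
  change (hop W f D ^ (q - j)) v = 0
  rw [show q - j = (q - j - 2) + 2 by omega, pow_add, Module.End.mul_apply,
    hop_sq hD hE hi hS, map_zero]

/-- Elements of large degree are in the highest piece. -/
lemma mem_piece {p : ℕ} {v : W.H Y} (hv : v ∈ below Q.piece (p + 1)) (hj : v ∈ W.gr Y (p + 1)) :
    v ∈ Q.piece p := by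
  have S' := setup Q hD hE hi.dim_eq
  have h1 : v = proj S'.iP p v := by
    rw [← sub_eq_zero]
    set w := v - proj S'.iP p v with hw
    have hwb : w ∈ below Q.piece p := S'.sub_proj_mem hv
    have hwg : w ∈ W.gr Y (p + 1) := Submodule.sub_mem _ hj (S'.projP_gr hj p)
    rw [S'.sumP w]
    apply Finset.sum_eq_zero
    intro q _
    by_cases hq : p ≤ q
    · exact S'.proj_below hq hwb
    · exact high_zero hD hE hi hS (by omega : q + 2 ≤ p + 1) (proj_mem S'.iP q w)
        (S'.projP_gr hwg q)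
  rw [h1]
  exact proj_mem S'.iP p v

/-- Elements of small degree are low in the filtration. -/
lemma mem_below_low {p : ℕ} {v : W.H Y} (hj : v ∈ W.gr Y p) : v ∈ below Q.piece (p + 2) := by
  have S' := setup Q hD hE hi.dim_eq
  rw [S'.sumP v]
  apply Submodule.sum_mem
  intro q _
  by_cases hq : q < p + 2
  · exact Setup.mem_below_of hq (proj_mem S'.iP q v)
  · rw [low_zero hD hE hi hS (by omega : p + 2 ≤ q) (proj_mem S'.iP q v) (S'.projP_gr hj q)]
    exact Submodule.zero_mem _

/-- Elements of small degree which are very low restrict to zero. -/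
lemma map_below {p : ℕ} {v : W.H Y} (hj : v ∈ W.gr Y p) (hv : v ∈ below Q.piece (p + 1)) :
    W.map i v = 0 := by
  obtain ⟨κ, M⟩ := exists_fibSetup hi
  have S' := setup Q hD hE hi.dim_eq
  have h7 := M.iota_proj (m := P.dim) (e := eop W Y E) S' hj
  have h8 := S'.proj_below (q := p + S.dim) (by omega : p + 1 ≤ p + S.dim) hv
  rw [h8, map_zero] at h7
  exact h7

/-- **The lowering operator along the base splits the restriction.** -/
theorem splits_of_base (hB : BaseB (pieces Q)) : RestrictionSplits W i := by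
  obtain ⟨x, hx, h1⟩ := hB
  rw [comb_iff (d := -1) (by ring)] at hx
  obtain ⟨κ, M⟩ := exists_fibSetup hi
  have S' := setup Q hD hE hi.dim_eq
  have hdim : (Y.dim : ℤ) - P.dim = 1 := by
    have := hi.dim_eq
    omega
  have hψ : κ⁻¹ • (x ∘ₗ W.push i) ∈ KOp W P Y 0 := by
    apply Submodule.smul_mem
    refine KOp.cast (KOp.comp hx (qop_push i).kop) ?_
    rw [hdim]; ring
  obtain ⟨c, hc, hcψ⟩ := mem_KOp_iff.1 hψ
  refine ⟨c, by simpa using hc, ?_, ?_⟩
  · rintro _ ⟨y, rfl⟩
    change W.map i (W.corr c (W.map i y)) = W.map i y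
    rw [hcψ]
    refine gr_induction (W.isInternal Y) (p := fun y =>
      W.map i ((κ⁻¹ • (x ∘ₗ W.push i)) (W.map i y)) = W.map i y) ?_ ?_ y
    swap
    · intro a b ha hb
      rw [map_add, map_add, map_add, ha, hb]
    intro l y hy
    have e1 : W.push i (W.map i y) = κ • hop W f D y := by
      have := M.γι y
      rw [hS, pow_one] at this
      exact this
    set v := hop W f D y with hv
    have hvg : v ∈ W.gr Y (l + 2) := by
      have := hop_mem (f := f) hD 1 l y hy
      rwa [pow_one] at this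
    -- the class `v` is in the piece `l + 1`
    have hvP : v ∈ Q.piece (l + 1) := by
      have h2 : v ∈ below Q.piece (l + 2) := by
        apply S'.h_below
        exact mem_below_low hD hE hi hS hy
      exact mem_piece hD hE hi hS h2 hvg
    have h3 := (h1 (l + 1) (l + 2) v ⟨Setup.mem_below_of (Nat.lt_succ_self _) hvP, hvg⟩).2
    have h4 : (LinearMap.mulLeft W.K (W.cl Y (ops.pull f D))) = hop W f D := by
      rw [W.cl_pull]
    rw [h4] at h3
    have h5 : hop W f D v = 0 := by
      have := hop_sq (f := f) (D := D) hD hE hi hS y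
      rwa [pow_two, Module.End.mul_apply] at this
    rw [h5, map_zero, sub_zero, show (((l + 2 : ℕ) : W.K) - ((l + 1 : ℕ) : W.K)) = 1 by
      push_cast; ring, one_smul] at h3
    have hxv : x v ∈ W.gr Y l := by
      have := KOp.isHom hx ((l + 2 : ℕ) : ℤ) v (by rw [grZ_natCast]; exact hvg)
      rwa [show ((l + 2 : ℕ) : ℤ) + 2 * -1 = (l : ℤ) by push_cast; ring, grZ_natCast] at this
    have h6 : hop W f D (x v) - v ∈ W.gr Y (l + 2) := by
      refine Submodule.sub_mem _ ?_ hvg
      have := hop_mem (f := f) hD 1 l _ hxv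
      rwa [pow_one] at this
    have h7 : hop W f D (x v) = v := by
      rw [← sub_eq_zero]
      have h8 : hop W f D (x v) - v ∈ Q.piece (l + 1) :=
        mem_piece hD hE hi hS (Setup.below_mono (by omega) h3) h6
      have h9 := S'.proj_below le_rfl h3
      rwa [proj_same S'.iP h8] at h9
    -- conclusion
    have h10 : W.push i (W.map i (x v) - W.map i y) = 0 := by
      rw [map_sub, e1]
      have := M.γι (x v)
      rw [hS, pow_one, h7] at this
      have e2 : W.push i (W.map i (x v)) = κ • v := this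
      rw [e2, sub_self]
    have h11 := fixed_disjoint hD hE hi (W.map i (x v) - W.map i y)
      (Submodule.sub_mem _ ⟨x v, rfl⟩ ⟨y, rfl⟩) h10
    rw [sub_eq_zero] at h11
    rw [LinearMap.smul_apply, LinearMap.comp_apply, e1, map_smul, map_smul, map_smul, smul_smul,
      inv_mul_cancel₀ M.κ0, one_smul, h11]
  · intro y hy
    rw [mem_perp_iff] at hy
    rw [hcψ, LinearMap.smul_apply, LinearMap.comp_apply, hy, map_zero, smul_zero, map_zero]

/-- **An algebraic section of the restriction gives the operators along the base.** -/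
theorem base_of_splits (h : RestrictionSplits W i) : BaseInj (pieces Q) := by
  obtain ⟨κ, M⟩ := exists_fibSetup hi
  have S' := setup Q hD hE hi.dim_eq
  have hdim : (Y.dim : ℤ) - P.dim = 1 := by
    have := hi.dim_eq
    omega
  intro p c hc
  by_cases hc1 : c = 1
  swap
  · -- large degrees
    refine ⟨0, (comb_iff (d := -c) (by ring)).2 (Submodule.zero_mem _), ?_⟩
    rintro v ⟨hv, hj⟩
    refine ⟨Submodule.zero_mem _, fun _ => ?_⟩
    have h1 : proj S'.iP p v = 0 :=
      high_zero hD hE hi hS (by omega : p + 2 ≤ p + c) (proj_mem S'.iP p v) (S'.projP_gr hj p)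
    have h2 := S'.sub_proj_mem hv
    rwa [h1, sub_zero] at h2
  subst hc1
  obtain ⟨c, hc, hc1, hc2⟩ := h
  have hψ : W.corr c ∈ KOp W P Y 0 := by
    rw [mem_KOp_iff]
    exact ⟨c, by simpa using hc, rfl⟩
  obtain ⟨φ, hφ, hadj⟩ := KOp.exists_adjoint hψ
  have hφ' : φ ∈ KOp W Y P (-1) := by
    refine KOp.cast hφ ?_
    rw [← hdim]; ring
  refine ⟨W.corr c ∘ₗ φ, ?_, ?_⟩
  · rw [comb_iff (d := -1) (by push_cast; ring)]
    exact KOp.cast (KOp.comp hψ hφ') (by ring)
  -- the composition
  have hcompl := fixed_isCompl hD hE hi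
  have hkey : ∀ w ∈ fixedPart W i, φ (W.push i w) = w := by
    intro w hw
    rw [← sub_eq_zero]
    apply nondeg_right
    intro a
    rw [mul_sub, map_sub, ← hadj, tr_mul_push, sub_eq_zero]
    obtain ⟨a1, ha1, a2, ha2, rfl⟩ := Submodule.mem_sup.1
      (show a ∈ fixedPart W i ⊔ fixedPerp W i by rw [hcompl.sup_eq_top]; trivial)
    rw [map_add, map_add, hc1 a1 ha1, hc2 a2 ha2, add_zero, add_mul, map_add, ha2 w hw, add_zero]
  rintro v ⟨hv, hj⟩
  have hvP := mem_piece hD hE hi hS hv hj
  -- `v` is a push-forward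
  obtain ⟨y, hy, hyv⟩ : ∃ y ∈ W.gr Y (p - 1), hop W f D y = v := by
    by_cases hp : p = 0
    · subst hp
      refine ⟨0, Submodule.zero_mem _, ?_⟩
      have h1 := Q.isPerverse.eq_bot 0 1 (by omega)
      have h2 : v ∈ Q.piece 0 ⊓ W.gr Y 1 := ⟨hvP, hj⟩
      rw [h1] at h2
      rw [(Submodule.mem_bot _).1 h2, map_zero]
    · obtain ⟨a, ha, hav⟩ := (Q.isPerverse.hardLef p (p - 1) (by omega)).2 v
        ⟨hvP, by rwa [show 2 * p - (p - 1) = p + 1 by omega]⟩
      refine ⟨a, ha.2, ?_⟩
      rw [show p - (p - 1) = 1 by omega, pow_one] at hav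
      exact hav
  set w := κ⁻¹ • W.map i y with hw
  have hwF : w ∈ fixedPart W i := Submodule.smul_mem _ _ ⟨y, rfl⟩
  have hpw : W.push i w = v := by
    have := M.γι y
    rw [hS, pow_one, hyv] at this
    have e2 : W.push i (W.map i y) = κ • v := this
    rw [hw, map_smul, e2, smul_smul, inv_mul_cancel₀ M.κ0, one_smul]
  have h1 : φ v = w := by rw [← hpw, hkey w hwF]
  by_cases hp : p = 0
  · subst hp
    have h1 := Q.isPerverse.eq_bot 0 1 (by omega)
    have h2 : v ∈ Q.piece 0 ⊓ W.gr Y 1 := ⟨hvP, hj⟩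
    rw [h1] at h2
    rw [(Submodule.mem_bot _).1 h2, map_zero]
    exact ⟨Submodule.zero_mem _, fun _ => Submodule.zero_mem _⟩
  have hwg : w ∈ W.gr P (p - 1) := Submodule.smul_mem _ _ (W.map_mem i hy)
  have h2 : (W.corr c ∘ₗ φ) v ∈ W.gr Y (p - 1) := by
    rw [LinearMap.comp_apply, h1]
    have := KOp.isHom hψ ((p - 1 : ℕ) : ℤ) w (by rw [grZ_natCast]; exact hwg)
    rwa [show ((p - 1 : ℕ) : ℤ) + 2 * 0 = ((p - 1 : ℕ) : ℤ) by ring, grZ_natCast] at this
  refine ⟨?_, fun h3 => ?_⟩
  · have := mem_below_low (Q := Q) hD hE hi hS h2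
    rwa [show p - 1 + 2 = p + 1 by omega] at this
  · have h4 : W.map i ((W.corr c ∘ₗ φ) v) = 0 :=
      map_below (Q := Q) hD hE hi hS h2 (by rwa [show p - 1 + 1 = p by omega])
    rw [LinearMap.comp_apply, h1, hc1 w hwF] at h4
    rw [← hpw, h4, map_zero]
    exact Submodule.zero_mem _

end Curve

end Pool.Agent.W498.Spl
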